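import Pool.Agent.H.MP_484e46_gt.G

set_option autoImplicit false

open MeasureTheory

namespace Pool.Agent.Results.MP_484e46_gt.Min

noncomputable def relBd {E : Type} [EMetricSpace E] [MeasurableSpace E] [BorelSpace E] (d : ℕ)
    (H S : Set E) : ENNReal :=
  μHE[d] (Subtype.val '' frontier {x : H | x.1 ∈ S})

def hyp {n : ℕ} (u : EuclideanSpace ℝ (Fin n)) : Set (EuclideanSpace ℝ (Fin n)) :=
  {x | ∑ j, u j * x j = 0}

def cube (n : ℕ) : Set (EuclideanSpace ℝ (Fin n)) := {x | ∀ i, |x i| ≤ 1}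

noncomputable def Per {n : ℕ} (u : EuclideanSpace ℝ (Fin n)) : ENNReal :=
  relBd (n - 2) (hyp u) (cube n)

lemma per_eq {n : ℕ} (u : EuclideanSpace ℝ (Fin n)) :
    Per u = μHE[n - 2] (Pool.Agent.H.MP_484e46_gt.Bd u) := by
  have e : hyp u = ((ℝ ∙ u)ᗮ : Submodule ℝ (EuclideanSpace ℝ (Fin n))) := by
    ext x
    rw [SetLike.mem_coe, Submodule.mem_orthogonal_singleton_iff_inner_right, PiLp.inner_apply]
    simp [hyp, mul_comm]
  rw [← Pool.Agent.H.MP_484e46_gt.front, ← isometry_subtype_coe.euclideanHausdorffMeasure_image,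
    Per, e]
  rfl

theorem result (n : ℕ) (hn : 2 ≤ n) (u : EuclideanSpace ℝ (Fin n)) (hu : ‖u‖ = 1) :
    (((n - 1) * 2 ^ (n - 1) : ℕ) : ENNReal) ≤ Per u ∧
    (Per u = (((n - 1) * 2 ^ (n - 1) : ℕ) : ENNReal) ↔
      n = 2 ∨ ∃ i, u = EuclideanSpace.single i 1 ∨ u = -EuclideanSpace.single i 1) := by
  obtain ⟨m, rfl⟩ : ∃ m, n = m + 2 := ⟨n - 2, by omega⟩
  have hs : ∑ l, u l ^ 2 = 1 := by
    have := EuclideanSpace.real_norm_sq_eq u
    rw [hu] at this
    simpa using this.symm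
  have e : (((m + 2 - 1) * 2 ^ (m + 2 - 1) : ℕ) : ENNReal) =
      ENNReal.ofReal (2 * ((m + 1) * 2 ^ m)) := by
    rw [← ENNReal.ofReal_natCast]
    congr 1
    rw [show m + 2 - 1 = m + 1 by omega]
    push_cast; ring
  rw [per_eq, e, show m + 2 - 2 = m by omega]
  obtain ⟨h1, h2⟩ := Pool.Agent.H.MP_484e46_gt.fin_thm m u hs
  refine ⟨h1, h2.trans (or_congr (by omega) (exists_congr fun i => ?_))⟩
  constructor
  · intro h
    have hz : ∀ k, u (i.succAbove k) = 0 := by
      intro k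
      rw [Fin.sum_univ_succAbove _ i, ← sq_abs (u i), h] at hs
      have := Finset.single_le_sum (s := Finset.univ) (f := fun j => u (i.succAbove j) ^ 2)
        (fun j _ => sq_nonneg _) (Finset.mem_univ k)
      exact pow_eq_zero_iff two_ne_zero |>.1 (le_antisymm (by linarith) (sq_nonneg _))
    rcases (abs_eq zero_le_one).1 h with h | h
    · left; ext l
      rcases Fin.eq_self_or_eq_succAbove i l with rfl | ⟨k, rfl⟩ <;> simp [h, hz]
    · right; ext l
      rcases Fin.eq_self_or_eq_succAbove i l with rfl | ⟨k, rfl⟩ <;> simp [h, hz]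
  · rintro (rfl | rfl) <;> simp

end Pool.Agent.Results.MP_484e46_gt.Min
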